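import Mathlib

set_option autoImplicit false

open Finset

namespace Pool.Agent.Results.MP_e74e46_co.Full

variable {n m : ℕ} {R : Type} [AddCommMonoid R] [LinearOrder R]

/-- The bundle of agent `i`; an allocation assigns an agent to each good. -/
def bundle (A : Fin m → Fin n) (i : Fin n) : Finset (Fin m) := univ.filter fun g => A g = i

def EF1 (w : Fin n → Fin m → R) (A : Fin m → Fin n) : Prop := ∀ i j, bundle A j = ∅ ∨
  ∃ g ∈ bundle A j, ∑ h ∈ (bundle A j).erase g, w i h ≤ ∑ h ∈ bundle A i, w i h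

def PO (u : Fin n → Fin m → R) (A : Fin m → Fin n) : Prop := ¬ ∃ B : Fin m → Fin n,
  (∀ i, ∑ h ∈ bundle A i, u i h ≤ ∑ h ∈ bundle B i, u i h) ∧
    ∃ i, ∑ h ∈ bundle A i, u i h < ∑ h ∈ bundle B i, u i h

def Balanced (A : Fin m → Fin n) : Prop :=
  ∀ i, (bundle A i).card = m / n ∨ (bundle A i).card = (m + n - 1) / n

def U : Fin 2 → Fin 8 → ℕ := ![![6, 9, 16, 56, 41, 2, 8, 72], ![26, 46, 47, 73, 67, 20, 40, 73]]

instance (w : Fin 2 → Fin 8 → ℕ) (A : Fin 8 → Fin 2) : Decidable (EF1 w A) := by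
  unfold EF1; infer_instance

lemma fin : ∀ a b c d e f g h : Fin 2, ∀ A, A = ![a, b, c, d, e, f, g, h] →
    ((bundle A 0).card = 4 ∨ EF1 (fun _ _ => 1) A) → EF1 U A → ∃ B ∈ [![1, 1, 1, 0, 1, 1, 1, 0], ![1, 1, 0, 0, 1, 1, 1, 0], ![1, 1, 1, 0, 0, 1, 1, 0], ![1, 0, 1, 0, 1, 1, 1, 0]],
    (∀ i, ∑ h ∈ bundle A i, U i h ≤ ∑ h ∈ bundle B i, U i h) ∧
      ∃ i, ∑ h ∈ bundle A i, U i h < ∑ h ∈ bundle B i, U i h := by
  simp only [forall_eq]
  decide +kernel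

theorem result : ∃ u : Fin 2 → Fin 8 → ℝ, (∀ i g, 0 < u i g) ∧
    (¬ ∃ A, EF1 u A ∧ PO u A ∧ Balanced A) ∧
    ∃ v : Fin 8 → ℝ, (∀ g, 0 ≤ v g) ∧ ¬ ∃ A, EF1 u A ∧ PO u A ∧ EF1 (fun _ => v) A := by
  have e : ∀ (w : Fin 2 → Fin 8 → ℕ) A, EF1 (fun i g => (w i g : ℝ)) A → EF1 w A := fun w A h => by
    simpa only [EF1, ← Nat.cast_sum, Nat.cast_le] using h
  have k : ∀ A, EF1 (fun i g => (U i g : ℝ)) A → PO (fun i g => (U i g : ℝ)) A →
      ¬ ((bundle A 0).card = 4 ∨ EF1 (fun _ _ => 1) A) := fun A a b c => by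
    obtain ⟨B, -, h⟩ := fin (A 0) (A 1) (A 2) (A 3) (A 4) (A 5) (A 6) (A 7) A
      (by ext i; fin_cases i <;> rfl) c (e U A a)
    exact b ⟨B, by simpa only [← Nat.cast_sum, Nat.cast_le, Nat.cast_lt] using h⟩
  refine ⟨fun i g => U i g, ?_, fun ⟨A, a, b, c⟩ => k A a b (.inl (by simpa using c 0)),
    fun _ => (1 : ℕ), fun _ => by positivity, fun ⟨A, a, b, c⟩ => k A a b (.inr (e _ A c))⟩
  simp only [Nat.cast_pos]
  decide

end Pool.Agent.Results.MP_e74e46_co.Full
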